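import Mathlib
import Pool.Agent.N546.PN.Stm

/-!
Project PN (helper546), part DEL: a polynomial which vanishes at all singular families (helper478).
Adapted from `Pool.Agent.Y697.C13.Main`.
-/

set_option autoImplicit false
set_option linter.unusedSectionVars false

namespace Pool.Agent.N478.PN

open MvPolynomial
open Pool.Agent.N546.PN
open scoped Classical

theorem exists_ker {σ τ : Type} [Finite σ] [Finite τ] (h : Nat.card τ < Nat.card σ)
    (φ : MvPolynomial σ ℚ →ₐ[ℚ] MvPolynomial τ ℚ) : ∃ D, D ≠ 0 ∧ φ D = 0 := by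
  obtain ⟨_⟩ := nonempty_fintype σ
  obtain ⟨_⟩ := nonempty_fintype τ
  rw [Nat.card_eq_fintype_card, Nat.card_eq_fintype_card] at h
  by_contra hne
  push Not at hne
  have hinj : Function.Injective φ := by
    rw [injective_iff_map_eq_zero]
    intro D hD
    by_contra h0
    exact hne D h0 hD
  have h1 := _root_.trdeg_le_of_injective φ hinj
  rw [MvPolynomial.trdeg_of_isDomain, MvPolynomial.trdeg_of_isDomain, Cardinal.lift_le,
    Cardinal.mk_fintype, Cardinal.mk_fintype] at h1
  have h2 : Fintype.card σ ≤ Fintype.card τ := by exact_mod_cast h1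
  omega

/-- clearing denominators -/
theorem clear_den {σ : Type} (D : MvPolynomial σ ℚ) (hD : D ≠ 0) :
    ∃ (Δ : MvPolynomial σ ℤ) (b : ℤ), Δ ≠ 0 ∧ b ≠ 0 ∧
      MvPolynomial.map (algebraMap ℤ ℚ) Δ = (b : ℚ) • D := by
  obtain ⟨b, hb⟩ := IsLocalization.exist_integer_multiples_of_finset (nonZeroDivisors ℤ)
    (S := ℚ) (D.support.image fun m => D.coeff m)
  have hz : ∀ m, ∃ z : ℤ, (z : ℚ) = (b : ℤ) * D.coeff m := by
    intro m
    by_cases hm : m ∈ D.support
    · obtain ⟨z, hz⟩ := hb (D.coeff m) (Finset.mem_image_of_mem _ hm)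
      refine ⟨z, ?_⟩
      rw [Algebra.smul_def] at hz
      exact hz
    · refine ⟨0, ?_⟩
      rw [MvPolynomial.notMem_support_iff.mp hm]
      simp
  choose z hz using hz
  have hb0 : ((b : ℤ) : ℚ) ≠ 0 := by
    exact_mod_cast nonZeroDivisors.ne_zero b.2
  have hmap : MvPolynomial.map (algebraMap ℤ ℚ)
      (∑ m ∈ D.support, MvPolynomial.monomial m (z m)) = ((b : ℤ) : ℚ) • D := by
    rw [map_sum]
    conv_rhs => rw [MvPolynomial.as_sum D, Finset.smul_sum]
    refine Finset.sum_congr rfl fun m _ => ?_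
    rw [MvPolynomial.map_monomial, MvPolynomial.smul_monomial, smul_eq_mul, ← hz m]
    rfl
  refine ⟨_, b, ?_, by exact_mod_cast hb0, hmap⟩
  intro h0
  rw [h0, map_zero] at hmap
  exact (smul_ne_zero hb0 hD) hmap.symm

section forms

variable {n : ℕ}

/-- value of a monomial -/
def mv {A : Type} [CommRing A] {D : ℕ} (x : Fin (n + 1) → A) (m : Mon n D) : A :=
  ∏ i, x i ^ (m.1 i)

/-- value of the derivative of a monomial -/
def dv {A : Type} [CommRing A] {D : ℕ} (x : Fin (n + 1) → A) (a : Fin (n + 1)) (m : Mon n D) : A :=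
  ((m.1 a : ℕ) : A) * ∏ i, x i ^ (m.1 i - if i = a then 1 else 0)

theorem val_eq {A : Type} [CommRing A] {D : ℕ} (c : Mon n D → A) (x : Fin (n + 1) → A) :
    val c x = ∑ m, c m * mv x m := rfl

theorem dval_eq {A : Type} [CommRing A] {D : ℕ} (c : Mon n D → A) (a : Fin (n + 1))
    (x : Fin (n + 1) → A) : dval c a x = ∑ m, c m * dv x a m :=
  Finset.sum_congr rfl fun _ _ => mul_assoc _ _ _

theorem mem_mon {m : Fin (n + 1) → ℕ} {D : ℕ} (h : ∑ i, m i = D) :
    m ∈ Finset.piAntidiag (Finset.univ : Finset (Fin (n + 1))) D :=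
  Finset.mem_piAntidiag.mpr ⟨h, fun i _ => Finset.mem_univ i⟩

theorem mon_sum {D : ℕ} (m : Mon n D) : ∑ i, m.1 i = D := (Finset.mem_piAntidiag.mp m.2).1

theorem sum_single (r : Fin (n + 1)) (D : ℕ) : ∑ i, (Pi.single r D : Fin (n + 1) → ℕ) i = D := by
  rw [Finset.sum_pi_single']
  simp

/-- `X_r ^ D` -/
def eA (r : Fin (n + 1)) (D : ℕ) : Mon n D := ⟨Pi.single r D, mem_mon (sum_single r D)⟩

/-- `X_r ^ D X_a` -/
def eB (r a : Fin (n + 1)) (D : ℕ) : Mon n (D + 1) := ⟨Pi.single r D + Pi.single a 1, mem_mon (by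
  simp only [Pi.add_apply]
  rw [Finset.sum_add_distrib, sum_single, sum_single])⟩

theorem eA_ne {r a : Fin (n + 1)} (D : ℕ) (h : a ≠ r) : eB r a D ≠ eA r (D + 1) := by
  intro h1
  have h2 := congrFun (congrArg Subtype.val h1) a
  simp only [eA, eB, Pi.add_apply, Pi.single_eq_same, Pi.single_eq_of_ne h] at h2
  omega

theorem eB_inj {r a a' : Fin (n + 1)} (D : ℕ) (h : a ≠ r) (h1 : eB r a D = eB r a' D) : a = a' := by
  by_contra hne
  have h2 := congrFun (congrArg Subtype.val h1) a
  simp only [eB, Pi.add_apply, Pi.single_eq_same, Pi.single_eq_of_ne h, Pi.single_eq_of_ne hne] at h2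
  omega

theorem mv_eA {A : Type} [CommRing A] (x : Fin (n + 1) → A) {r : Fin (n + 1)} (D : ℕ)
    (hx : x r = 1) : mv x (eA r D) = 1 := by
  unfold mv eA
  refine Finset.prod_eq_one fun i _ => ?_
  by_cases h : i = r
  · rw [h, hx, one_pow]
  · show x i ^ ((Pi.single r D : Fin (n + 1) → ℕ) i) = 1
    rw [Pi.single_eq_of_ne h, pow_zero]

theorem dv_eA {A : Type} [CommRing A] (x : Fin (n + 1) → A) {r a : Fin (n + 1)} (D : ℕ)
    (h : a ≠ r) : dv x a (eA r D) = 0 := by
  unfold dv eA
  show (((Pi.single r D : Fin (n + 1) → ℕ) a : ℕ) : A) * _ = 0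
  rw [Pi.single_eq_of_ne h, Nat.cast_zero, zero_mul]

theorem dv_eB_ne {A : Type} [CommRing A] (x : Fin (n + 1) → A) {r a a' : Fin (n + 1)} (D : ℕ)
    (h : a ≠ r) (h' : a ≠ a') : dv x a (eB r a' D) = 0 := by
  unfold dv eB
  show ((((Pi.single r D : Fin (n + 1) → ℕ) a + (Pi.single a' 1 : Fin (n + 1) → ℕ) a : ℕ)) : A) * _
    = 0
  rw [Pi.single_eq_of_ne h, Pi.single_eq_of_ne h', add_zero, Nat.cast_zero, zero_mul]

theorem dv_eB {A : Type} [CommRing A] (x : Fin (n + 1) → A) {r a : Fin (n + 1)} (D : ℕ)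
    (h : a ≠ r) (hx : x r = 1) : dv x a (eB r a D) = 1 := by
  unfold dv eB
  have h1 : ((Pi.single r D + Pi.single a 1 : Fin (n + 1) → ℕ)) a = 1 := by
    rw [Pi.add_apply, Pi.single_eq_of_ne h, Pi.single_eq_same]
  show ((((Pi.single r D + Pi.single a 1 : Fin (n + 1) → ℕ)) a : ℕ) : A) *
    ∏ i, x i ^ (((Pi.single r D + Pi.single a 1 : Fin (n + 1) → ℕ)) i - if i = a then 1 else 0) = 1
  rw [h1, Nat.cast_one, one_mul]
  refine Finset.prod_eq_one fun i _ => ?_
  by_cases hr : i = r
  · rw [hr, hx, one_pow]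
  · by_cases ha : i = a
    · rw [ha, h1, if_pos rfl, Nat.sub_self, pow_zero]
    · rw [Pi.add_apply, Pi.single_eq_of_ne hr, Pi.single_eq_of_ne ha, if_neg ha]
      simp

variable {ι : Type} [Fintype ι] (e : ι → ℕ) (I : Finset ι) (j0 : ι) (r : Fin (n + 1))

/-- the second type of special coefficients -/
def isB (k : ι) (m : Mon n (e k + 1)) (a : Fin (n + 1)) : Prop := a ≠ r ∧ k = j0 ∧ m = eB r a (e k)

/-- the first type of special coefficients -/
def isA (k : ι) (m : Mon n (e k + 1)) : Prop := k ∈ I ∧ m = eA r (e k + 1)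

/-- special coefficients -/
def spec (k : ι) (m : Mon n (e k + 1)) : Prop := isA e I r k m ∨ ∃ a, isB e j0 r k m a

theorem isB_unique {k : ι} {m : Mon n (e k + 1)} {a a' : Fin (n + 1)} (h : isB e j0 r k m a)
    (h' : isB e j0 r k m a') : a = a' :=
  eB_inj (e k) h.1 (h.2.2.symm.trans h'.2.2)

theorem not_isB_of_isA {k : ι} {m : Mon n (e k + 1)} (h : isA e I r k m) (a : Fin (n + 1)) :
    ¬ isB e j0 r k m a := fun h' => eA_ne (e k) h'.1 (h'.2.2.symm.trans h.2)

/-- the solution of the second type of equations -/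
noncomputable def gB {A : Type} [CommRing A] (w : (k : ι) → Mon n (e k + 1) → A)
    (x : Fin (n + 1) → A) (l : ι → A) (a : Fin (n + 1)) : A :=
  - ∑ k, l k * ∑ m, w k m * dv x a m

/-- first step -/
noncomputable def c1 {A : Type} [CommRing A] (w : (k : ι) → Mon n (e k + 1) → A)
    (x : Fin (n + 1) → A) (l : ι → A) (k : ι) (m : Mon n (e k + 1)) : A :=
  w k m + ∑ a, if isB e j0 r k m a then gB e w x l a else 0

/-- second step -/
noncomputable def c2 {A : Type} [CommRing A] (w : (k : ι) → Mon n (e k + 1) → A)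
    (x : Fin (n + 1) → A) (l : ι → A) (k : ι) (m : Mon n (e k + 1)) : A :=
  c1 e j0 r w x l k m + if isA e I r k m then - ∑ m', c1 e j0 r w x l k m' * mv x m' else 0

section nat

variable {A B : Type} [CommRing A] [CommRing B] (g : A →+* B) (w : (k : ι) → Mon n (e k + 1) → A)
  (x : Fin (n + 1) → A) (l : ι → A)

theorem map_mv {D : ℕ} (m : Mon n D) : g (mv x m) = mv (fun i => g (x i)) m := by
  unfold mv
  rw [map_prod]
  simp only [map_pow]

theorem map_dv {D : ℕ} (a : Fin (n + 1)) (m : Mon n D) :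
    g (dv x a m) = dv (fun i => g (x i)) a m := by
  unfold dv
  rw [map_mul, map_prod, map_natCast]
  simp only [map_pow]

theorem map_gB (a : Fin (n + 1)) : g (gB e w x l a) =
    gB e (fun k m => g (w k m)) (fun i => g (x i)) (fun k => g (l k)) a := by
  unfold gB
  simp only [map_neg, map_sum, map_mul, map_dv]

theorem map_c1 (k : ι) (m : Mon n (e k + 1)) : g (c1 e j0 r w x l k m) =
    c1 e j0 r (fun k m => g (w k m)) (fun i => g (x i)) (fun k => g (l k)) k m := by
  unfold c1
  rw [map_add, map_sum]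
  congr 1
  refine Finset.sum_congr rfl fun i _ => ?_
  split_ifs
  · exact map_gB e g w x l i
  · exact map_zero g

theorem map_c2 (k : ι) (m : Mon n (e k + 1)) : g (c2 e I j0 r w x l k m) =
    c2 e I j0 r (fun k m => g (w k m)) (fun i => g (x i)) (fun k => g (l k)) k m := by
  unfold c2
  rw [map_add, map_c1]
  congr 1
  split_ifs
  · simp only [map_neg, map_sum, map_mul, map_mv, map_c1]
  · exact map_zero g

end nat

section key

variable {A : Type} [CommRing A] (c : (k : ι) → Mon n (e k + 1) → A)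
  (x : Fin (n + 1) → A) (l : ι → A)

/-- the coefficients that are not special -/
noncomputable def uu : (k : ι) → Mon n (e k + 1) → A :=
  fun k m => if spec e I j0 r k m then 0 else c k m

theorem decomp (k : ι) (m : Mon n (e k + 1)) : c k m = uu e I j0 r c k m +
    (∑ a, if isB e j0 r k m a then c k m else 0) + (if isA e I r k m then c k m else 0) := by
  unfold uu
  by_cases h1 : isA e I r k m
  · have h2 : ∀ a, ¬ isB e j0 r k m a := not_isB_of_isA e I j0 r h1
    have h3 : spec e I j0 r k m := Or.inl h1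
    rw [if_pos h3, if_pos h1, Finset.sum_eq_zero (fun i _ => if_neg (h2 i))]
    ring
  · rw [if_neg h1]
    by_cases h2 : ∃ a, isB e j0 r k m a
    · obtain ⟨i, hi⟩ := h2
      have h3 : spec e I j0 r k m := Or.inr ⟨i, hi⟩
      rw [if_pos h3, Finset.sum_eq_single i, if_pos hi]
      · ring
      · intro i' _ hne
        exact if_neg fun h => hne (isB_unique e j0 r h hi)
      · intro h
        exact absurd (Finset.mem_univ _) h
    · have h3 : ¬ spec e I j0 r k m := by
        rintro (h | h)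
        · exact h1 h
        · exact h2 h
      rw [if_neg h3, Finset.sum_eq_zero (fun i _ => if_neg (fun h => h2 ⟨i, h⟩))]
      ring

theorem gB_eq (hx : x r = 1) (hl : l j0 = 1)
    (hG : ∀ a, ∑ k, l k * ∑ m, c k m * dv x a m = 0) (a : Fin (n + 1)) (ha : a ≠ r) :
    gB e (uu e I j0 r c) x l a = c j0 (eB r a (e j0)) := by
  have h1 : ∀ k, ∑ m, c k m * dv x a m =
      ∑ m, uu e I j0 r c k m * dv x a m +
      if k = j0 then c j0 (eB r a (e j0)) else 0 := by
    intro k
    have h2 : ∀ m ∈ (Finset.univ : Finset (Mon n (e k + 1))),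
        c k m * dv x a m = uu e I j0 r c k m * dv x a m +
        if isB e j0 r k m a then c k m else 0 := by
      intro m _
      conv_lhs => rw [decomp e I j0 r c k m]
      rw [add_mul, add_mul]
      have h3 : (if isA e I r k m then c k m else 0) * dv x a m = 0 := by
        split_ifs with h
        · rw [h.2, dv_eA x _ ha, mul_zero]
        · rw [zero_mul]
      rw [h3, add_zero]
      congr 1
      rw [Finset.sum_mul, Finset.sum_eq_single a]
      · split_ifs with h
        · rw [h.2.2, dv_eB x _ ha hx, mul_one]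
        · rw [zero_mul]
      · intro i' _ hne
        split_ifs with h
        · rw [h.2.2, dv_eB_ne x _ ha (Ne.symm hne), mul_zero]
        · rw [zero_mul]
      · intro h
        exact absurd (Finset.mem_univ _) h
    rw [Finset.sum_congr rfl h2, Finset.sum_add_distrib]
    congr 1
    split_ifs with hj
    · subst hj
      rw [Finset.sum_eq_single (eB r a (e k))]
      · exact if_pos ⟨ha, rfl, rfl⟩
      · intro m _ hne
        exact if_neg fun h => hne h.2.2
      · intro h
        exact absurd (Finset.mem_univ _) h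
    · exact Finset.sum_eq_zero fun m _ => if_neg fun h => hj h.2.1
  have h2 := hG a
  simp only [h1, mul_add, Finset.sum_add_distrib, mul_ite, mul_zero] at h2
  rw [Finset.sum_ite_eq' Finset.univ j0, if_pos (Finset.mem_univ _), hl, one_mul] at h2
  unfold gB
  linear_combination -h2

theorem c2_eq (hx : x r = 1) (hl : l j0 = 1)
    (hE : ∀ k ∈ I, ∑ m, c k m * mv x m = 0)
    (hG : ∀ a, ∑ k, l k * ∑ m, c k m * dv x a m = 0) (k : ι)
    (m : Mon n (e k + 1)) : c2 e I j0 r (uu e I j0 r c) x l k m = c k m := by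
  have h1 : ∀ m, c1 e j0 r (uu e I j0 r c) x l k m =
      c k m - (if isA e I r k m then c k m else 0) := by
    intro m
    have h2 := decomp e I j0 r c k m
    have h3 : (∑ a, if isB e j0 r k m a then gB e (uu e I j0 r c) x l a else 0) =
        ∑ a, if isB e j0 r k m a then c k m else 0 := by
      refine Finset.sum_congr rfl fun a _ => ?_
      split_ifs with h
      · rw [gB_eq e I j0 r c x l hx hl hG a h.1]
        obtain ⟨-, hk, hm⟩ := h
        subst hk
        rw [hm]
      · rfl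
    unfold c1
    rw [h3]
    linear_combination -h2
  unfold c2
  by_cases hA : isA e I r k m
  · have h4 : ∑ m', c1 e j0 r (uu e I j0 r c) x l k m' * mv x m' =
        - c k (eA r (e k + 1)) := by
      simp only [h1, sub_mul, Finset.sum_sub_distrib]
      rw [hE k hA.1, zero_sub]
      congr 1
      rw [Finset.sum_eq_single (eA r (e k + 1))]
      · rw [if_pos ⟨hA.1, rfl⟩, mv_eA x _ hx, mul_one]
      · intro b _ hb
        rw [if_neg (fun h => hb h.2), zero_mul]
      · intro h
        exact absurd (Finset.mem_univ _) h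
    rw [h4, h1, if_pos hA, if_pos hA, hA.2]
    ring
  · rw [h1, if_neg hA, if_neg hA]
    ring

end key

/-- the coefficients -/
abbrev VS : Type := (k : ι) × Mon n (e k + 1)

/-- the parameters -/
abbrev PS : Type := {v : VS (n := n) e // v ≠ ⟨j0, eA r (e j0 + 1)⟩}

theorem card_PS : Nat.card (PS e j0 r) < Nat.card (VS (n := n) e) := by
  rw [Nat.card_eq_fintype_card, Nat.card_eq_fintype_card]
  exact Fintype.card_subtype_lt (x := (⟨j0, eA r (e j0 + 1)⟩ : VS (n := n) e)) (fun h => h rfl)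

theorem ne_of_not {k : ι} {m : Mon n (e k + 1)} (h1 : ¬ (k = j0 ∧ m = eA r (e k + 1))) :
    (⟨k, m⟩ : VS (n := n) e) ≠ ⟨j0, eA r (e j0 + 1)⟩ := by
  intro h2
  apply h1
  obtain ⟨h3, h4⟩ := Sigma.mk.inj_iff.1 h2
  subst h3
  exact ⟨rfl, eq_of_heq h4⟩

/-- generic parameters -/
noncomputable def UU (hI : j0 ∈ I) (k : ι) (m : Mon n (e k + 1)) : MvPolynomial (PS e j0 r) ℚ :=
  if h : spec e I j0 r k m then 0 else X ⟨⟨k, m⟩, ne_of_not e j0 r fun h1 =>
    h (Or.inl ⟨h1.1 ▸ hI, h1.2⟩)⟩

/-- generic parameters -/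
noncomputable def XX (a : Fin (n + 1)) : MvPolynomial (PS e j0 r) ℚ :=
  if h : a = r then 1 else X ⟨⟨j0, eB r a (e j0)⟩, ne_of_not e j0 r fun h1 =>
    eA_ne (e j0) h h1.2⟩

/-- generic parameters -/
noncomputable def LL (k : ι) : MvPolynomial (PS e j0 r) ℚ :=
  if h : k = j0 then 1 else if k ∈ I then X ⟨⟨k, eA r (e k + 1)⟩, ne_of_not e j0 r fun h1 =>
    h h1.1⟩ else 0

/-- the generic solution -/
noncomputable def phi (hI : j0 ∈ I) :
    MvPolynomial (VS (n := n) e) ℚ →ₐ[ℚ] MvPolynomial (PS e j0 r) ℚ :=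
  aeval fun v => c2 e I j0 r (UU e I j0 r hI) (XX e j0 r) (LL e I j0 r) v.1 v.2

section point

variable {K : Type} [Field K] [CharZero K] (c : (k : ι) → Mon n (e k + 1) → K)
  (x : Fin (n + 1) → K) (l : ι → K)

/-- the point of the parameter space -/
noncomputable def pt : PS e j0 r → K := fun v =>
  if isA e I r v.1.1 v.1.2 then l v.1.1 else
    if h : ∃ a, isB e j0 r v.1.1 v.1.2 a then x h.choose else c v.1.1 v.1.2

theorem pt_UU (hI : j0 ∈ I) (k : ι) (m : Mon n (e k + 1)) :
    aeval (pt e I j0 r c x l) (UU e I j0 r hI k m) = uu e I j0 r c k m := by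
  unfold UU uu
  by_cases h1 : spec e I j0 r k m
  · rw [if_pos h1, dif_pos h1, map_zero]
  · rw [if_neg h1, dif_neg h1, aeval_X]
    unfold pt
    rw [if_neg (fun h => h1 (Or.inl h)), dif_neg (fun h => h1 (Or.inr h))]

theorem pt_XX (hx : x r = 1) (a : Fin (n + 1)) :
    aeval (pt e I j0 r c x l) (XX e j0 r a) = x a := by
  unfold XX
  by_cases h1 : a = r
  · rw [dif_pos h1, map_one, h1, hx]
  · rw [dif_neg h1, aeval_X]
    have h4 : isB e j0 r j0 (eB r a (e j0)) a := ⟨h1, rfl, rfl⟩
    have h5 : ∃ a', isB e j0 r j0 (eB r a (e j0)) a' := ⟨a, h4⟩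
    unfold pt
    rw [if_neg (fun h => not_isB_of_isA e I j0 r h a h4), dif_pos h5,
      isB_unique e j0 r h5.choose_spec h4]

theorem pt_LL (hl : l j0 = 1) (hl0 : ∀ k, k ∉ I → l k = 0) (k : ι) :
    aeval (pt e I j0 r c x l) (LL e I j0 r k) = l k := by
  unfold LL
  by_cases h1 : k = j0
  · rw [dif_pos h1, map_one, h1, hl]
  · rw [dif_neg h1]
    by_cases h2 : k ∈ I
    · rw [if_pos h2, aeval_X]
      unfold pt
      exact if_pos ⟨h2, rfl⟩
    · rw [if_neg h2, map_zero, hl0 k h2]

theorem pt_phi (hI : j0 ∈ I) (hx : x r = 1) (hl : l j0 = 1) (hl0 : ∀ k, k ∉ I → l k = 0)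
    (hE : ∀ k ∈ I, ∑ m, c k m * mv x m = 0)
    (hG : ∀ a, ∑ k, l k * ∑ m, c k m * dv x a m = 0)
    (D : MvPolynomial (VS (n := n) e) ℚ) (hD : phi e I j0 r hI D = 0) :
    aeval (fun v : VS (n := n) e => c v.1 v.2) D = 0 := by
  have h1 : (aeval (pt e I j0 r c x l)).comp (phi e I j0 r hI) =
      aeval (fun v : VS (n := n) e => c v.1 v.2) := by
    apply MvPolynomial.algHom_ext
    intro v
    rw [AlgHom.comp_apply]
    unfold phi
    rw [aeval_X, aeval_X]
    have h2 := map_c2 e I j0 r ((aeval (pt e I j0 r c x l) :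
      MvPolynomial (PS e j0 r) ℚ →ₐ[ℚ] K) : MvPolynomial (PS e j0 r) ℚ →+* K)
      (UU e I j0 r hI) (XX e j0 r) (LL e I j0 r) v.1 v.2
    rw [RingHom.coe_coe] at h2
    rw [h2]
    simp only [pt_XX e I j0 r c x l hx, pt_LL e I j0 r c x l hl hl0, pt_UU e I j0 r c x l hI]
    exact c2_eq e I j0 r c x l hx hl hE hG _ _
  rw [← h1, AlgHom.comp_apply, hD, map_zero]

end point

/-- scaling of a monomial -/
theorem mv_smul {K : Type} [Field K] {D : ℕ} (t : K) (x : Fin (n + 1) → K) (m : Mon n D) :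
    mv (fun i => t * x i) m = t ^ D * mv x m := by
  unfold mv
  simp only [mul_pow]
  rw [Finset.prod_mul_distrib, Finset.prod_pow_eq_pow_sum, mon_sum]

theorem dv_smul {K : Type} [Field K] {D : ℕ} (t : K) (x : Fin (n + 1) → K) (a : Fin (n + 1))
    (m : Mon n (D + 1)) : dv (fun i => t * x i) a m = t ^ D * dv x a m := by
  unfold dv
  by_cases h : m.1 a = 0
  · rw [h, Nat.cast_zero, zero_mul, zero_mul, mul_zero]
  · simp only [mul_pow]
    rw [Finset.prod_mul_distrib, Finset.prod_pow_eq_pow_sum]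
    have h1 : ∑ i, (m.1 i - if i = a then 1 else 0) = D := by
      have h2 := mon_sum m
      have h3 : ∑ i, (m.1 i - if i = a then 1 else 0) + ∑ i, (if i = a then 1 else 0) =
          ∑ i, m.1 i := by
        rw [← Finset.sum_add_distrib]
        refine Finset.sum_congr rfl fun i _ => ?_
        by_cases hi : i = a
        · subst hi
          rw [if_pos rfl]
          omega
        · rw [if_neg hi]
          omega
      rw [Finset.sum_ite_eq' Finset.univ a, if_pos (Finset.mem_univ _)] at h3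
      omega
    rw [h1]
    ring

end forms

/-- **Part DEL.** -/
theorem del_ : S_DEL := by
  intro n ι _ _ e
  have h0 : ∀ p : {p : Finset ι × ι × Fin (n + 1) // p.2.1 ∈ p.1},
      ∃ D : MvPolynomial (VS (n := n) e) ℚ, D ≠ 0 ∧
        phi e p.1.1 p.1.2.1 p.1.2.2 p.2 D = 0 :=
    fun p => exists_ker (card_PS e p.1.2.1 p.1.2.2) _
  choose D hD0 hD using h0
  obtain ⟨Δ, b, hΔ, hb, hmap⟩ := clear_den (∏ p, D p) (Finset.prod_ne_zero_iff.2 fun p _ => hD0 p)
  refine ⟨Δ, hΔ, ?_⟩
  intro K _ _ c hns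
  unfold Smo at hns
  push Not at hns
  obtain ⟨x, l, hx, hl, hE, hG⟩ := hns
  obtain ⟨r, hr⟩ := Function.ne_iff.1 hx
  obtain ⟨j0, hj⟩ := Function.ne_iff.1 hl
  rw [Pi.zero_apply] at hr hj
  set I : Finset ι := Finset.univ.filter fun k => l k ≠ 0 with hIdef
  have hjI : j0 ∈ I := by
    rw [hIdef, Finset.mem_filter]
    exact ⟨Finset.mem_univ _, hj⟩
  have hmI : ∀ k, k ∈ I ↔ l k ≠ 0 := by
    intro k
    rw [hIdef, Finset.mem_filter]
    simp
  set t : K := (x r)⁻¹ with ht
  have ht0 : t ≠ 0 := inv_ne_zero hr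
  set x' : Fin (n + 1) → K := fun i => t * x i with hx'
  set l' : ι → K := fun k => (l k * (t ^ (e k))⁻¹) * (l j0 * (t ^ (e j0))⁻¹)⁻¹ with hl'
  have hw : l j0 * (t ^ (e j0))⁻¹ ≠ 0 := mul_ne_zero hj (inv_ne_zero (pow_ne_zero _ ht0))
  have hprod : aeval (fun v : VS (n := n) e => c v.1 v.2) (D ⟨(I, j0, r), hjI⟩) = 0 := by
    refine pt_phi e I j0 r c x' l' hjI ?_ ?_ ?_ ?_ ?_ _ (hD ⟨(I, j0, r), hjI⟩)
    · rw [hx']
      exact inv_mul_cancel₀ hr
    · rw [hl']
      exact mul_inv_cancel₀ hw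
    · intro k hk
      have h1 : l k = 0 := by
        by_contra h2
        exact hk ((hmI k).mpr h2)
      simp only [hl', h1, zero_mul]
    · intro k hk
      have h2 := hE k ((hmI k).mp hk)
      rw [val_eq] at h2
      have h3 : ∀ m ∈ (Finset.univ : Finset (Mon n (e k + 1))), c k m * mv x' m =
          t ^ (e k + 1) * (c k m * mv x m) := by
        intro m _
        rw [hx', mv_smul]
        ring
      rw [Finset.sum_congr rfl h3, ← Finset.mul_sum, h2, mul_zero]
    · intro a
      have h2 := hG a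
      have h3 : ∀ k, l' k * ∑ m, c k m * dv x' a m =
          (l j0 * (t ^ (e j0))⁻¹)⁻¹ * (l k * dval (c k) a x) := by
        intro k
        rw [dval_eq]
        have h4 : ∀ m ∈ (Finset.univ : Finset (Mon n (e k + 1))), c k m * dv x' a m =
            t ^ (e k) * (c k m * dv x a m) := by
          intro m _
          rw [hx', dv_smul]
          ring
        rw [Finset.sum_congr rfl h4, ← Finset.mul_sum, hl']
        have h6 : (t ^ (e k))⁻¹ * t ^ (e k) = 1 := inv_mul_cancel₀ (pow_ne_zero _ ht0)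
        linear_combination ((l k) * (l j0 * (t ^ (e j0))⁻¹)⁻¹ *
          (∑ m, c k m * dv x a m)) * h6
      rw [Finset.sum_congr rfl (fun k _ => h3 k), ← Finset.mul_sum, h2, mul_zero]
  have hall : aeval (fun v : VS (n := n) e => c v.1 v.2) (∏ p, D p) = 0 := by
    rw [map_prod]
    exact Finset.prod_eq_zero (Finset.mem_univ _) hprod
  have h5 : aeval (fun v : VS (n := n) e => c v.1 v.2)
      (MvPolynomial.map (algebraMap ℤ ℚ) Δ) = 0 := by
    rw [hmap, map_smul, hall, smul_zero]
  rw [MvPolynomial.aeval_map_algebraMap] at h5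
  exact h5

end Pool.Agent.N478.PN
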